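import Mathlib
import Pool.Agent.Helper43.Gx.Goals

set_option autoImplicit false

namespace Pool.Agent.Helper43.Gx.PkX7

open Finset Pool.Agent.Lead.Sh
open Pool.Agent.Helper43.Gm (st mv nn SS Run Pri)
open Pool.Agent.Helper43.Gm.PkD (od nn_eq SS_eq od_succ od_le od_congr x_zero mono_le)
open Pool.Agent.Helper43.Gm.PkE (KK ek ex run_ext run_restrict nn_ext lt_KK sum_eq_SS old_drop
  le_of_sum ek_lt ek_ge ex_lt ex_ge KK_ge)
open Pool.Agent.Helper43.Ah (pat Good)

/-! ### The averaging operator -/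

theorem hop_one (φ : ℕ → ℤ) : Hop φ 1 = 0 := by
  unfold Hop
  rw [sum_range_one]
  norm_num

theorem hop_succ (φ : ℕ → ℤ) (w : ℕ) :
    Hop φ (w + 2) = Hop φ (w + 1) + (w + 1) * (w + 2) * (φ (w + 2) + φ w - 2 * φ (w + 1)) := by
  unfold Hop
  rw [sum_range_succ _ (w + 1)]
  rw [show w + 2 - 1 = w + 1 by omega, show w + 1 - 1 = w by omega]
  push_cast
  ring

theorem hop_sub (b f : ℕ → ℤ) (w : ℕ) : Hop (fun t => b t - f t) w = Hop b w - Hop f w := by
  unfold Hop
  rw [sum_sub_distrib]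
  ring

theorem hop_le (b : ℕ → ℤ) (S : ℕ) : ∀ w : ℕ,
    (∀ t, t + 1 ≤ w → b (t + 2) + b t ≤ 2 * b (t + 1) + S) →
    3 * Hop b (w + 1) ≤ S * (w * (w + 1) * (w + 2)) := by
  intro w
  induction w with
  | zero =>
    intro _
    rw [zero_add, hop_one]
    simp
  | succ w ih =>
    intro hb
    have h1 := ih fun t ht => hb t (by omega)
    have h2 := hb w (by omega)
    rw [hop_succ]
    have h3 : ((w : ℤ) + 1) * (w + 2) * (b (w + 2) + b w - 2 * b (w + 1)) ≤
        ((w : ℤ) + 1) * (w + 2) * S := by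
      apply mul_le_mul_of_nonneg_left _ (by positivity)
      linarith
    push_cast
    nlinarith [h1, h3]

variable {M J : ℕ} {ν κ x ℓ : ℕ → ℕ}

/-! ### The first points are old -/

theorem key_P (hC : Gm.GoalC) (hR : Run M J ν κ x) (hSS : ∀ y < J, SS κ x ν y = ℓ y) {P : ℕ}
    (hM : 1 ≤ M) (hJ : 2 * M + 2 ≤ J)
    (hsum : ∑ c ∈ range P, (ν c + 1).choose 2 ≤ ∑ y ∈ range (J - (2 * M + 1)), ℓ y) :
    P ≤ κ (J - M - 1) := by
  obtain ⟨q, hq⟩ : ∃ q, J - (2 * M + 1) = q + 1 := ⟨J - (2 * M + 2), by omega⟩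
  rw [hq] at hsum
  have hRQ : Run M (q + 1) ν κ x := run_restrict hR (by omega)
  have hE := run_ext hRQ (by omega) (q + 1 + M)
  have htot : ∀ c ∈ range (KK κ x (q + 1)), ∑ y ∈ range (q + 1 + M),
      nn (ek κ x (q + 1)) (ex x (q + 1)) ν c y = (ν c + 1).choose 2 := by
    intro c hc
    rw [mem_range] at hc
    exact hC M (q + 1 + M) ν _ _ hE c (q + 1) (by omega) (by rw [ek_ge le_rfl]; exact hc) le_rfl
  have h1 : ∑ y ∈ range (q + 1), ℓ y ≤ ∑ c ∈ range (KK κ x (q + 1)), (ν c + 1).choose 2 := by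
    rw [← sum_congr rfl htot, sum_comm, sum_range_add _ (q + 1) M]
    refine le_trans (le_of_eq ?_) (Nat.le_add_right _ _)
    apply sum_congr rfl
    intro y hy
    rw [mem_range] at hy
    rw [sum_congr rfl (fun c _ => nn_ext hy), sum_eq_SS _ (fun c hc => lt_KK hRQ hy hc)]
    exact (hSS y (by omega)).symm
  have hP : P ≤ KK κ x (q + 1) := le_of_sum hR.ν1 (hsum.trans h1)
  have hmono : ∀ y z, y ≤ z → z < J → κ y ≤ κ z := fun y z hyz hz =>
    mono_le (run_restrict hR (by omega : z + 1 ≤ J)) (z - y) y (by omega)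
  have hJM : J - M - 1 = q + (M + 1) := by omega
  rw [hJM]
  unfold KK at hP
  rw [Nat.add_sub_cancel] at hP
  by_contra hcon
  have h2 := hmono q (q + (M + 1)) (by omega) (by omega)
  have hx : 0 < x q := by
    by_contra h
    rw [if_neg h] at hP
    omega
  rw [if_pos hx] at hP
  have h3 : ∀ t ≤ M, t + 1 ≤ x (q + t) := by
    intro t
    induction t with
    | zero => intro _; exact hx
    | succ t ih =>
      intro ht
      have h4 := ih (by omega)
      have h5 := hmono q (q + t) (by omega) (by omega)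
      have h6 := hmono (q + t) (q + t + 1) (by omega) (by omega)
      have h7 := hmono (q + t + 1) (q + (M + 1)) (by omega) (by omega)
      have h8 := hR.inc (q + t) (by omega) (by omega) (by omega)
      rw [← add_assoc]
      omega
  have h4 := h3 M le_rfl
  have h5 := hR.le (q + M) (by omega)
  have h6 := hR.νM (κ (q + M))
  omega

/-! ### The old part -/

/-- what the started points give to the row `J + j` -/
def U (κ x ν : ℕ → ℕ) (J j : ℕ) : ℕ :=
  ∑ c ∈ range (KK κ x J), nn (ek κ x J) (ex x J) ν c (J + j)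

theorem U_drop (j : ℕ) : U κ x ν J (j + 1) ≤ U κ x ν J j - 1 := by
  unfold U
  rw [show J + (j + 1) = J + j + 1 by omega]
  exact old_drop (by rw [ek_ge (by omega)]) (by rw [ek_ge (by omega)])

theorem U_le (j : ℕ) : U κ x ν J j ≤ U κ x ν J 0 - j := by
  induction j with
  | zero => omega
  | succ j ih =>
    have := U_drop (κ := κ) (x := x) (ν := ν) (J := J) j
    omega

theorem U_zero (hR : Run M J ν κ x) (hJ : 1 ≤ J) :
    ∃ o, U κ x ν J 0 + o ≤ SS κ x ν (J - 1) + M ∧ SS κ x ν (J - 1) ≤ M * o + M := by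
  obtain ⟨r, hr⟩ : ∃ r, J = r + 1 := ⟨J - 1, by omega⟩
  have hr' : J - 1 = r := by omega
  rw [hr']
  obtain ⟨o, ho1, ho2⟩ := Gm.PkD.drop (κ := κ) (x := x) (y := r) hR.νM
  have hSS := SS_eq κ x ν r
  have hx : x r ≤ M := (hR.le r (by omega)).trans (hR.νM _)
  refine ⟨o, ?_, by omega⟩
  have hKr : KK κ x J = κ r + (if 0 < x r then 1 else 0) := by rw [KK, hr']
  have hold : ∑ c ∈ range (κ r), nn (ek κ x J) (ex x J) ν c (r + 1) =
      ∑ c ∈ range (κ r), od κ x ν c (r + 1) := by
    apply sum_congr rfl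
    intro c hc
    rw [mem_range] at hc
    have h1 : κ r ≤ KK κ x J := by rw [hKr]; omega
    rw [nn_eq, ek_ge (by omega : J ≤ r + 1), if_neg (by omega), if_neg (by omega)]
    exact od_congr (fun t ht => ek_lt (by omega)) (fun t ht => ex_lt (by omega))
  unfold U
  rw [hKr]
  split_ifs with h2
  · rw [sum_range_succ]
    have h3 : nn (ek κ x J) (ex x J) ν (κ r) (J + 0) ≤ M := by
      rw [nn_eq, ek_ge (by omega), hKr, if_pos h2, if_neg (by omega), if_neg (by omega)]
      exact od_le.trans (hR.νM _)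
    rw [add_zero] at h3 ⊢
    have h4 : ∑ c ∈ range (κ r), nn (ek κ x J) (ex x J) ν c J =
        ∑ c ∈ range (κ r), od κ x ν c (r + 1) := by rw [← hold, ← hr]
    rw [h4]
    omega
  · rw [add_zero, add_zero]
    have h4 : ∑ c ∈ range (κ r), nn (ek κ x J) (ex x J) ν c J =
        ∑ c ∈ range (κ r), od κ x ν c (r + 1) := by rw [← hold, ← hr]
    rw [h4]
    omega

theorem goalX7 (hC : Gm.GoalC) (h1 : GoalX1) (h2 : GoalX2) (h3 : GoalX3) (h4 : GoalX4)
    (h5 : GoalX5) (h6 : GoalX6) : GoalX7 := by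
  intro M μ S R P N ν ℓ hμ1 hμM hν1 hνM hPμ hR hStep hZone hsP hsN
  have hM1 : 1 ≤ M := by omega
  obtain ⟨J, hJ⟩ : ∃ J, R = J + μ := ⟨R - μ, by omega⟩
  have hJ3 : 3 * M + 6 ≤ J := by omega
  have hStepJ : Step M J ℓ :=
    ⟨fun y hy => hStep.1 y (by omega), fun y hy => hStep.2 y (by omega)⟩
  obtain ⟨κ, x, hRun, hSS⟩ := h1 M J ν ℓ hM1 hν1 hνM hStepJ
  set K := KK κ x J with hK
  -- (1)
  have hP : P ≤ κ (J - M - 1) := by
    refine key_P hC hRun hSS hM1 (by omega) (hsP.trans ?_)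
    exact sum_le_sum_of_subset (range_mono (by omega))
  have hmono : ∀ y z, y ≤ z → z < J → κ y ≤ κ z := fun y z hyz hz =>
    mono_le (run_restrict hRun (by omega : z + 1 ≤ J)) (z - y) y (by omega)
  have hPK : P ≤ K := hP.trans ((hmono _ _ (by omega) (by omega)).trans KK_ge)
  -- number of points started in a row
  have hM2 : 0 < M ^ 2 := by positivity
  have haa : ∀ y, J ≤ y + μ + 1 → y + 1 < J → aa κ x y + (22 + S) ≤ aa κ x (y + 1) := by
    intro y hy1 hy2
    obtain ⟨h7, h8⟩ := h2 M J ν κ x hRun y hy2 (by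
      rw [hSS y (by omega), hSS (y + 1) hy2]
      exact hStep.1 y (by omega))
    rw [hSS y (by omega)] at h8
    have h9 := hZone.1 y (by omega) (by omega)
    have h10 : (22 + S) * M ^ 2 ≤ M ^ 2 * (aa κ x (y + 1) - aa κ x y) := by
      have : (25 + S) * M ^ 2 = (22 + S) * M ^ 2 + 3 * M ^ 2 := by ring
      omega
    rw [mul_comm] at h10
    have h11 := Nat.le_of_mul_le_mul_left h10 hM2
    omega
  obtain ⟨hX3, hFF0⟩ := h3 M μ J P (22 + S) ν κ x hRun hμ1 hμM hPμ (by omega) hP (by omega) haa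
  -- (2)
  have hFFU : ∀ j < μ, FF κ x ν μ J (μ - 1 - j) = (U κ x ν J j : ℤ) := by
    intro j hj
    unfold FF U
    rw [show J + μ - 1 - (μ - 1 - j) = J + j by omega]
    push_cast
    rfl
  have hFFU' : ∀ t < μ, FF κ x ν μ J t = (U κ x ν J (μ - 1 - t) : ℤ) := by
    intro t ht
    have := hFFU (μ - 1 - t) (by omega)
    rwa [show μ - 1 - (μ - 1 - t) = t by omega] at this
  have hU0 : U κ x ν J (μ - 1) = 0 := by
    have := hFFU' 0 (by omega)
    rw [hFF0, Nat.sub_zero] at this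
    exact_mod_cast this.symm
  have hUz : ∀ j, μ - 1 ≤ j → U κ x ν J j = 0 := by
    intro j hj
    induction j, hj using Nat.le_induction with
    | base => exact hU0
    | succ j _ ih =>
      have := U_drop (κ := κ) (x := x) (ν := ν) (J := J) j
      omega
  have hℓJ : (25 + S) * M ^ 2 ≤ ℓ (J - 1) := hZone.1 (J - 1) (by omega) (by omega)
  have hstepJ : ∀ j < μ, ℓ (J - 1) ≤ ℓ (J + j) + (j + 1) := by
    intro j
    induction j with
    | zero =>
      intro _
      have := hStep.1 (J - 1) (by omega)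
      rw [show J - 1 + 1 = J by omega] at this
      rw [add_zero]
      omega
    | succ j ih =>
      intro hj
      have h7 := ih (by omega)
      have h8 := hStep.1 (J + j) (by omega)
      rw [show J + (j + 1) = J + j + 1 by omega]
      omega
  have hUℓ : ∀ j < μ, U κ x ν J j ≤ ℓ (J + j) := by
    intro j hj
    obtain ⟨o, ho1, ho2⟩ := U_zero hRun (by omega)
    rw [hSS (J - 1) (by omega)] at ho1 ho2
    have h7 := U_le (κ := κ) (x := x) (ν := ν) (J := J) j
    have h8 := hstepJ j hj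
    have h9 : M + 1 ≤ o := by
      by_contra hcon
      have h10 : M * o ≤ M * M := Nat.mul_le_mul_left _ (by omega)
      have h11 : 25 * M ^ 2 ≤ (25 + S) * M ^ 2 := Nat.mul_le_mul_right _ (by omega)
      have h12 : M ≤ M ^ 2 := by nlinarith
      have h13 : M * M = M ^ 2 := by ring
      omega
    omega
  have hE := run_ext hRun (by omega) (J + M)
  have htot : ∀ c ∈ range K, ∑ y ∈ range (J + M), nn (ek κ x J) (ex x J) ν c y =
      (ν c + 1).choose 2 := by
    intro c hc
    rw [mem_range] at hc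
    exact hC M (J + M) ν _ _ hE c J (by omega) (by rw [ek_ge le_rfl]; exact hc) le_rfl
  have hrow : ∀ y < J, ∑ c ∈ range K, nn (ek κ x J) (ex x J) ν c y = ℓ y := by
    intro y hy
    rw [sum_congr rfl (fun c _ => nn_ext hy), sum_eq_SS K (fun c hc => lt_KK hRun hy hc)]
    exact hSS y hy
  have hKtot : ∑ c ∈ range K, (ν c + 1).choose 2 =
      ∑ y ∈ range J, ℓ y + ∑ j ∈ range μ, U κ x ν J j := by
    rw [← sum_congr rfl htot, sum_comm, sum_range_add]
    congr 1
    · exact sum_congr rfl fun y hy => hrow y (mem_range.1 hy)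
    · have h7 : M = μ + (M - μ) := by omega
      rw [h7, sum_range_add]
      have h8 : ∑ j ∈ range (M - μ), ∑ c ∈ range K, nn (ek κ x J) (ex x J) ν c (J + (μ + j)) =
          0 := by
        apply sum_eq_zero
        intro j _
        exact hUz (μ + j) (by omega)
      rw [h8, add_zero]
      rfl
  have hRsum : ∑ y ∈ range R, ℓ y = ∑ y ∈ range J, ℓ y + ∑ j ∈ range μ, ℓ (J + j) := by
    rw [hJ, sum_range_add]
  have hUsum : ∑ j ∈ range μ, U κ x ν J j ≤ ∑ j ∈ range μ, ℓ (J + j) :=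
    sum_le_sum fun j hj => hUℓ j (mem_range.1 hj)
  have hKN : K ≤ N := le_of_sum hν1 (by omega)
  obtain ⟨n, hn⟩ : ∃ n, N = K + n := ⟨N - K, by omega⟩
  have hνK : ∀ c, ν (K + c) = μ := fun c => hPμ _ (by omega)
  -- (3)
  set b : ℕ → ℤ := fun t => (ℓ (R - 1 - t) : ℤ) with hb
  set g : ℕ → ℤ := fun t => b t - FF κ x ν μ J t with hg
  have hgμ : g μ = 0 := by
    simp only [hg, hb]
    unfold FF
    rw [show R - 1 - μ = J - 1 by omega, show J + μ - 1 - μ = J - 1 by omega]
    have h7 := hrow (J - 1) (by omega)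
    rw [← h7]
    push_cast
    ring
  have hgrow : ∀ j < μ, g (μ - 1 - j) = (ℓ (J + j) : ℤ) - U κ x ν J j := by
    intro j hj
    simp only [hg, hb]
    rw [hFFU j hj, show R - 1 - (μ - 1 - j) = J + j by omega]
  have hg0 : ∀ t < μ, 0 ≤ g t := by
    intro t ht
    have h7 := hgrow (μ - 1 - t) (by omega)
    rw [show μ - 1 - (μ - 1 - t) = t by omega] at h7
    have h8 := hUℓ (μ - 1 - t) (by omega)
    rw [h7]
    have h9 : (U κ x ν J (μ - 1 - t) : ℤ) ≤ ℓ (J + (μ - 1 - t)) := by exact_mod_cast h8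
    linarith
  have hgsum : 2 * ∑ t ∈ range μ, g t = n * μ * (μ + 1) := by
    rw [← sum_range_reflect g μ]
    rw [sum_congr rfl fun j hj => hgrow j (mem_range.1 hj), sum_sub_distrib]
    have h7 : ∑ c ∈ range N, (ν c + 1).choose 2 = ∑ c ∈ range K, (ν c + 1).choose 2 +
        n * (μ + 1).choose 2 := by
      rw [hn, sum_range_add]
      congr 1
      rw [sum_congr rfl fun c _ => by rw [hνK c], sum_const, card_range, smul_eq_mul]
    have h8 : ∑ j ∈ range μ, ℓ (J + j) = ∑ j ∈ range μ, U κ x ν J j + n * (μ + 1).choose 2 := by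
      omega
    have h9 : 2 * (μ + 1).choose 2 = μ * (μ + 1) := by
      rw [Nat.choose_two_right, Nat.add_sub_cancel, mul_comm (μ + 1) μ]
      exact Nat.mul_div_cancel' (even_iff_two_dvd.1 (Nat.even_mul_succ_self μ))
    have h10 : (∑ j ∈ range μ, (ℓ (J + j) : ℤ)) = ∑ j ∈ range μ, (U κ x ν J j : ℤ) +
        n * ((μ + 1).choose 2 : ℕ) := by exact_mod_cast h8
    have h11 : (2 : ℤ) * ((μ + 1).choose 2 : ℕ) = μ * (μ + 1) := by exact_mod_cast h9
    rw [h10]
    linear_combination (n : ℤ) * h11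
  have hHop : ∀ w : ℕ, 2 ≤ w → w ≤ μ → 6 * (((w : ℤ) - 1) * w * (w + 1)) ≤ - Hop g w := by
    intro w hw1 hw2
    have h7 := hX3 w hw1 hw2
    obtain ⟨v, rfl⟩ : ∃ v, w = v + 1 := ⟨w - 1, by omega⟩
    have h8 := hop_le b S v (by
      intro t ht
      have h9 := hZone.2 (R - 1 - (t + 2)) (by omega) (by omega)
      simp only [hb]
      rw [show R - 1 - (t + 2) + 2 = R - 1 - t by omega,
        show R - 1 - (t + 2) + 1 = R - 1 - (t + 1) by omega] at h9
      exact_mod_cast h9)
    have h9 : Hop g (v + 1) = Hop b (v + 1) - Hop (FF κ x ν μ J) (v + 1) := by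
      rw [hg]
      exact hop_sub _ _ _
    rw [h9]
    push_cast at h7 h8 ⊢
    have h10 : ((v : ℤ) + 1 - 1) * (v + 1) * (v + 1 + 1) = v * (v + 1) * (v + 2) := by ring
    rw [h10] at h7 ⊢
    nlinarith [h7, h8]
  have hg1 : 2 ≤ μ → g 1 ≤ g 0 + n := by
    intro hμ2
    have hb1 : b 1 ≤ b 0 + 1 := by
      simp only [hb]
      have := hStep.1 (R - 1 - 1) (by omega)
      rw [show R - 1 - 1 + 1 = R - 1 - 0 by omega] at this
      exact_mod_cast this
    have hF1 : 0 ≤ FF κ x ν μ J 1 := by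
      rw [hFFU' 1 (by omega)]
      positivity
    have hn1 : 1 ≤ n := by
      by_contra hcon
      have hn0 : n = 0 := by omega
      rw [hn0] at hgsum
      have h7 : g 0 ≤ ∑ t ∈ range μ, g t :=
        single_le_sum (fun t ht => hg0 t (mem_range.1 ht)) (mem_range.2 (by omega))
      have h8 : 0 < g 0 := by
        simp only [hg, hb]
        rw [hFF0, Nat.sub_zero, sub_zero]
        have h9 := hZone.1 (R - 1) (by omega) (by omega)
        have : 0 < (25 + S) * M ^ 2 := by positivity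
        have h10 : 0 < ℓ (R - 1) := by omega
        exact_mod_cast h10
      push_cast at hgsum
      linarith
    have h7 : g 1 = b 1 - FF κ x ν μ J 1 := rfl
    have h8 : g 0 = b 0 - FF κ x ν μ J 0 := rfl
    rw [h7, h8, hFF0]
    have h9 : (1 : ℤ) ≤ n := by exact_mod_cast hn1
    linarith
  -- (4)
  obtain ⟨i, z, hiz, hpat⟩ := h4 μ n g hμ1 hgμ hgsum hHop hg1
  have hER := run_ext hRun (by omega) R
  obtain ⟨π1, ε1, s, hpri1, hlin, hlin'⟩ := h5 M R J K ν _ _ hER (by omega)
    (fun y hy _ => ⟨ek_ge hy, ex_ge hy⟩) (by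
      intro y hy
      rw [ek_lt hy, ex_lt hy]
      have h7 := hmono y (J - 1) (by omega) (by omega)
      have h8 : κ (J - 1) ≤ K := KK_ge
      refine ⟨by omega, fun h => ?_⟩
      have h9 : K = κ (J - 1) + (if 0 < x (J - 1) then 1 else 0) := rfl
      have h10 : x (J - 1) = 0 := by
        by_contra hne
        rw [if_pos (Nat.pos_of_ne_zero hne)] at h9
        omega
      obtain ⟨r, hr⟩ : ∃ r, J = r + 1 := ⟨J - 1, by omega⟩
      rw [show J - 1 = r by omega] at h10 h7 h8
      exact x_zero (run_restrict hRun (by omega : r + 1 ≤ J)) h10 (r - y) y (by omega) (by omega))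
  obtain ⟨π, ε, hpri⟩ := h6 R J μ K n ν i z (nn (ek κ x J) (ex x J) ν) π1 ε1 s hμ1 hJ.symm
    (hpri1 K) hlin hlin' (fun c _ => hνK c) hiz
  refine ⟨_, π, ε, by rw [hn]; exact hpri, ?_⟩
  intro y hy
  rw [hn, sum_range_add]
  have e1 : ∑ c ∈ range K, (if c < K then nn (ek κ x J) (ex x J) ν c y else if y < J then 0 else
      pat μ μ (i (c - K)) (z (c - K)) (y - J)) =
      ∑ c ∈ range K, nn (ek κ x J) (ex x J) ν c y :=
    sum_congr rfl fun c hc => if_pos (mem_range.1 hc)
  have e2 : ∑ c ∈ range n, (if K + c < K then nn (ek κ x J) (ex x J) ν (K + c) y else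
      if y < J then 0 else pat μ μ (i (K + c - K)) (z (K + c - K)) (y - J)) =
      ∑ c ∈ range n, if y < J then 0 else pat μ μ (i c) (z c) (y - J) := by
    apply sum_congr rfl
    intro c _
    rw [if_neg (by omega), Nat.add_sub_cancel_left]
  rw [e1, e2]
  rcases Nat.lt_or_ge y J with h7 | h7
  · rw [hrow y h7]
    exact Nat.le_add_right _ _
  · obtain ⟨j, rfl⟩ := Nat.exists_eq_add_of_le h7
    have h8 := hpat j (by omega)
    rw [hgrow j (by omega)] at h8
    have h9 : ∑ c ∈ range n, (if J + j < J then 0 else pat μ μ (i c) (z c) (J + j - J)) =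
        ∑ c ∈ range n, pat μ μ (i c) (z c) j := by
      apply sum_congr rfl
      intro c _
      rw [if_neg (by omega), Nat.add_sub_cancel_left]
    rw [h9]
    have h10 : ∑ c ∈ range K, nn (ek κ x J) (ex x J) ν c (J + j) = U κ x ν J j := rfl
    rw [h10]
    have h11 : ((∑ c ∈ range n, pat μ μ (i c) (z c) j : ℕ) : ℤ) = (ℓ (J + j) : ℤ) - U κ x ν J j := by
      push_cast
      exact h8
    have h12 : (ℓ (J + j) : ℤ) = ((U κ x ν J j + ∑ c ∈ range n, pat μ μ (i c) (z c) j : ℕ) : ℤ) := by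
      push_cast
      push_cast at h11
      linarith
    exact (by exact_mod_cast h12 : ℓ (J + j) = _).le

end Pool.Agent.Helper43.Gx.PkX7
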